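import Pool.Agent.Lib.MP_f99268_lc_Y.Main

namespace Pool.Agent.Results.MP_f99268_lc.AllArities

open Pool.Agent.MP_f99268_lc

theorem result {ι : Type} [Finite ι] {ar : ι → ℕ} {D : Type} [Countable D]
    [Infinite D] (Δ : Str ι ar D) (hlin : IsStrictTotalOrder D Δ.lt) (hhom : Homogeneous Δ)
    (hR : RamseyProperty Δ)
    (Γ : (n : ℕ) → Set (Set (Fin n → D))) (hΓ : IsReduct Δ Γ)
    (hno : ¬ HasHomToProjections (Pol Γ)) :
    ∃ (n : ℕ) (c : Fin n → D), ∀ m, ¬ HasHomToProjections (TypeClone Δ c (Pol Γ) m) :=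
  main_all hlin hhom hR hΓ hno

end Pool.Agent.Results.MP_f99268_lc.AllArities
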